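import Pool.Agent.helper16.LW.Spec

set_option autoImplicit false

open Complex MeasureTheory

namespace Pool.Agent.LW

open Pool.Agent.ZD Pool.Agent.helper84.DM Pool.Agent.helper78.ED Pool.Agent.DH

theorem WTG_card (T : ℝ) (W : Finset ℝ) (hT : 0 ≤ T) (hW : S1 T W) : (W.card : ℝ) ≤ T + 1 := by
  have h1 : W.card ≤ (Finset.range (⌊T⌋₊ + 1)).card := by
    apply Finset.card_le_card_of_injOn (fun t => ⌊t⌋₊)
    · intro t ht
      simp only [Finset.coe_range, Set.mem_Iio]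
      have h := hW.1 t ht
      exact Nat.lt_succ_of_le (Nat.floor_le_floor h.2)
    · intro t ht s hs hts
      simp only at hts
      by_contra hne
      have h1 := hW.2 t ht s hs hne
      have h2 := Nat.floor_le (hW.1 t ht).1
      have h3 := Nat.floor_le (hW.1 s hs).1
      have h4 := Nat.lt_floor_add_one t
      have h5 := Nat.lt_floor_add_one s
      rw [hts] at h2 h4
      have h6 : |t - s| < 1 := by
        rw [abs_lt]
        constructor <;> linarith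
      linarith
  rw [Finset.card_range] at h1
  have h2 : (W.card : ℝ) ≤ ((⌊T⌋₊ + 1 : ℕ) : ℝ) := by exact_mod_cast h1
  push_cast at h2
  have h3 := Nat.floor_le hT
  linarith

theorem WTG_norm_cpow (n : ℕ) (hn : 0 < n) (u : ℝ) : ‖(n : ℂ) ^ (-((u : ℂ) * Complex.I))‖ = 1 := by
  rw [Complex.norm_natCast_cpow_of_pos hn]
  simp

theorem WTG_DPle (N : ℕ) (a : ℕ → ℂ) (u : ℝ) (ha : Co N a) : ‖DP N a u‖ ≤ N := by
  unfold DP
  calc _ ≤ ∑ n ∈ Finset.Ioc N (2 * N), ‖a n * (n : ℂ) ^ (-((u : ℂ) * Complex.I))‖ := norm_sum_le _ _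
    _ ≤ ∑ n ∈ Finset.Ioc N (2 * N), (1 : ℝ) := by
        apply Finset.sum_le_sum
        intro n hn
        have hn' : 0 < n := by
          have := (Finset.mem_Ioc.mp hn).1
          omega
        rw [norm_mul, WTG_norm_cpow n hn', mul_one]
        exact ha n hn
    _ = N := by
        rw [Finset.sum_const, Nat.card_Ioc, nsmul_eq_mul, mul_one]
        congr 1
        omega

theorem WTG_cont (N : ℕ) (a : ℕ → ℂ) : Continuous (DP N a) := by
  unfold DP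
  apply continuous_finsetSum
  intro n hn
  have hn' : (n : ℂ) ≠ 0 := by
    have := (Finset.mem_Ioc.mp hn).1
    exact_mod_cast (by omega : n ≠ 0)
  refine continuous_const.mul ?_
  refine Continuous.const_cpow ?_ (Or.inl hn')
  fun_prop

/-- the twisted coefficients -/
noncomputable def WTG_tw (a : ℕ → ℂ) (θ : ℝ) (n : ℕ) : ℂ := a n * (n : ℂ) ^ (-((θ : ℂ) * Complex.I))

theorem WTG_tw_co (N : ℕ) (a : ℕ → ℂ) (θ : ℝ) (ha : Co N a) : Co N (WTG_tw a θ) := by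
  intro n hn
  have hn' : 0 < n := by
    have := (Finset.mem_Ioc.mp hn).1
    omega
  unfold WTG_tw
  rw [norm_mul, WTG_norm_cpow n hn', mul_one]
  exact ha n hn

theorem WTG_tw_DP (N : ℕ) (a : ℕ → ℂ) (θ u : ℝ) : DP N (WTG_tw a θ) u = DP N a (u + θ) := by
  unfold DP WTG_tw
  apply Finset.sum_congr rfl
  intro n hn
  have hn' : (n : ℂ) ≠ 0 := by
    have := (Finset.mem_Ioc.mp hn).1
    exact_mod_cast (by omega : n ≠ 0)
  rw [mul_assoc, ← Complex.cpow_add _ _ hn']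
  congr 2
  push_cast
  ring

/-- the truncated fourth power -/
noncomputable def WTG_h (N : ℕ) (b : ℕ → ℂ) (U : ℝ) (x : ℝ) : ℝ :=
  if ‖DP N b x‖ ≤ U then ‖DP N b x‖ ^ 4 else 0

theorem WTG_h_meas (N : ℕ) (b : ℕ → ℂ) (U : ℝ) : Measurable (WTG_h N b U) := by
  unfold WTG_h
  have hc := (WTG_cont N b).norm
  exact Measurable.ite (measurableSet_le hc.measurable measurable_const)
    (hc.pow 4).measurable measurable_const

theorem WTG_h_bd (N : ℕ) (b : ℕ → ℂ) (U : ℝ) (hb : Co N b) (x : ℝ) :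
    0 ≤ WTG_h N b U x ∧ WTG_h N b U x ≤ (N : ℝ) ^ 4 := by
  unfold WTG_h
  split_ifs
  · exact ⟨by positivity, pow_le_pow_left₀ (norm_nonneg _) (WTG_DPle N b x hb) 4⟩
  · exact ⟨le_rfl, by positivity⟩

theorem WTG_mF (J N : ℕ) (b : ℕ → ℂ) (U θ : ℝ) :
    ∑ j ∈ IJ J, wj J j * WTG_h N b U ((j : ℝ) + θ) = mF J N (WTG_tw b θ) U := by
  unfold mF
  apply Finset.sum_congr rfl
  intro j _
  unfold FU F0 WTG_h
  rw [WTG_tw_DP]
  split_ifs <;> ring

theorem WTG_BB (T J : ℝ) (N : ℝ) (hT : 1 ≤ T) (hJ0 : 0 ≤ J) (hJ : J ≤ 13 * T) (hN : 0 ≤ N) :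
    BB J N ≤ 13 * BB T N := by
  have key : ∀ p : ℝ, 0 ≤ p → p ≤ 1 → J ^ p ≤ 13 * T ^ p := by
    intro p hp0 hp1
    calc J ^ p ≤ (13 * T) ^ p := Real.rpow_le_rpow hJ0 hJ hp0
      _ = 13 ^ p * T ^ p := Real.mul_rpow (by norm_num) (by linarith)
      _ ≤ 13 ^ (1 : ℝ) * T ^ p := by
          apply mul_le_mul_of_nonneg_right _ (Real.rpow_nonneg (by linarith) _)
          exact Real.rpow_le_rpow_of_exponent_le (by norm_num) hp1
      _ = 13 * T ^ p := by rw [Real.rpow_one]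
  unfold BB
  have h1 := key (1 / 2) (by norm_num) (by norm_num)
  have h2 := key (6 / 7) (by norm_num) (by norm_num)
  have h3 : (0 : ℝ) ≤ N ^ 3 := by positivity
  have h4 : (0 : ℝ) ≤ N ^ (18 / 7 : ℝ) := Real.rpow_nonneg hN _
  nlinarith [mul_le_mul_of_nonneg_right h1 h3, mul_le_mul_of_nonneg_right h2 h4]

/-- the case of small values: points where the local values are small -/
theorem WTG_small (T S K e V U CG CI : ℝ) (N J : ℕ) (a : ℕ → ℂ) (W : Finset ℝ)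
    (hT : 1 ≤ T) (hN : 1 ≤ N) (hNT : (N : ℝ) ≤ T) (hS : S = K * T ^ e) (hS0 : 0 ≤ S)
    (hV : 1 ≤ V) (hCG : 0 < CG) (hCI : 0 < CI) (he0 : 0 ≤ e) (he1 : e ≤ 1)
    (hW : S1 T W) (hCo : Co N a) (hVW : ∀ t ∈ W, V ≤ ‖DP N a t‖)
    (hGAU : GAU_stmt)
    (hI : ∀ (T S H : ℝ) (W : Finset ℝ) (h : ℝ → ℝ) (J : ℕ), 1 ≤ T → 0 ≤ S →
      S1 T W → Measurable h → (∀ x, 0 ≤ h x ∧ h x ≤ H) → 2 * (T + S + 1) ≤ J →
      ∑ t ∈ W, ∫ s in (-S)..S, h (t + s) * gs s ≤
        CI * ∫ θ in (0 : ℝ)..1, ∑ j ∈ IJ J, wj J j * h ((j : ℝ) + θ))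
    (hTAI : ∀ f : ℝ → ℝ, Continuous f → (∀ s, 0 ≤ f s ∧ f s ≤ T ^ 4) →
      Integrable (fun s => f s * gs s) ∧
      ∫ s : ℝ, f s * gs s ≤ (∫ s in (-(K * T ^ e))..(K * T ^ e), f s * gs s) + 1 / 32)
    (hJ1 : 2 * (T + S + 1) ≤ J) (hJ2 : (J : ℝ) ≤ 13 * T)
    (hG : ∀ a : ℕ → ℂ, Co N a → mF J N a U ≤ CG * (J : ℝ) ^ e * BB J N)
    (hsm : ∀ t ∈ W, ∀ s : ℝ, |s| ≤ S → ‖DP N (bc N a) (t + s)‖ ≤ U) :
    (W.card : ℝ) ≤ 32 * 169 * (CI * CG) * T ^ e * (BB T N / V ^ 4) := by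
  obtain ⟨hb, hga⟩ := hGAU N a hN hCo
  have hT0 : (0 : ℝ) < T := by linarith
  have hNR : (1 : ℝ) ≤ N := by exact_mod_cast hN
  -- pointwise
  have hpt : ∀ t ∈ W, V ^ 4 / 2 ≤ 16 * ∫ s in (-S)..S, WTG_h N (bc N a) U (t + s) * gs s := by
    intro t ht
    have h1 := (hga t).2
    have h2 := hTAI (fun s => ‖DP N (bc N a) (t + s)‖ ^ 4)
      (((WTG_cont N (bc N a)).comp (continuous_const.add continuous_id)).norm.pow 4)
      (fun s => ⟨by positivity, by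
        have h3 := WTG_DPle N (bc N a) (t + s) hb
        exact pow_le_pow_left₀ (norm_nonneg _) (h3.trans hNT) 4⟩)
    have h3 := h2.2
    rw [← hS] at h3
    have h4 : ∫ s in (-S)..S, ‖DP N (bc N a) (t + s)‖ ^ 4 * gs s =
        ∫ s in (-S)..S, WTG_h N (bc N a) U (t + s) * gs s := by
      apply intervalIntegral.integral_congr
      intro s hs
      rw [Set.uIcc_of_le (by linarith)] at hs
      have h5 := hsm t ht s (abs_le.mpr hs)
      simp only [WTG_h]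
      rw [if_pos h5]
    rw [h4] at h3
    have h6 : V ^ 4 ≤ ‖DP N a t‖ ^ 4 := pow_le_pow_left₀ (by linarith) (hVW t ht) 4
    have h7 : 1 ≤ V ^ 4 := one_le_pow₀ hV
    linarith
  have hsum := hI T S ((N : ℝ) ^ 4) W (WTG_h N (bc N a) U) J hT hS0 hW (WTG_h_meas _ _ _)
    (WTG_h_bd N _ U hb) hJ1
  have hint : ∫ θ in (0 : ℝ)..1, ∑ j ∈ IJ J, wj J j * WTG_h N (bc N a) U ((j : ℝ) + θ) ≤
      CG * (J : ℝ) ^ e * BB J N := by
    have h1 : ‖∫ θ in (0 : ℝ)..1, ∑ j ∈ IJ J, wj J j * WTG_h N (bc N a) U ((j : ℝ) + θ)‖ ≤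
        CG * (J : ℝ) ^ e * BB J N * |1 - 0| := by
      apply intervalIntegral.norm_integral_le_of_norm_le_const
      intro θ _
      have h2 := hG (WTG_tw (bc N a) θ) (WTG_tw_co N _ θ hb)
      rw [← WTG_mF] at h2
      rw [Real.norm_eq_abs, abs_of_nonneg]
      · exact h2
      · apply Finset.sum_nonneg
        intro j hj
        apply mul_nonneg _ (WTG_h_bd N _ U hb _).1
        unfold wj
        unfold IJ at hj
        rw [Finset.mem_Ioo] at hj
        have hj1 : |(j : ℝ)| ≤ J := by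
          rw [abs_le]
          constructor
          · have : -(J : ℤ) ≤ j := hj.1.le
            exact_mod_cast this
          · have : j ≤ (J : ℤ) := hj.2.le
            exact_mod_cast this
        have hJpos : (0 : ℝ) < J := by linarith
        rw [sub_nonneg, div_le_one hJpos]
        exact hj1
    rw [sub_zero, abs_one, mul_one] at h1
    exact (le_abs_self _).trans h1
  have hJpow : (J : ℝ) ^ e ≤ 13 * T ^ e := by
    calc (J : ℝ) ^ e ≤ (13 * T) ^ e := Real.rpow_le_rpow (by positivity) hJ2 he0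
      _ = 13 ^ e * T ^ e := Real.mul_rpow (by norm_num) hT0.le
      _ ≤ 13 ^ (1 : ℝ) * T ^ e := by
          apply mul_le_mul_of_nonneg_right _ (Real.rpow_nonneg hT0.le _)
          exact Real.rpow_le_rpow_of_exponent_le (by norm_num) he1
      _ = 13 * T ^ e := by rw [Real.rpow_one]
  have hBB := WTG_BB T J N hT (by positivity) hJ2 (by positivity)
  have hBB0 : 0 ≤ BB T N := by unfold BB; positivity
  have hBB1 : 0 ≤ BB J N := by unfold BB; positivity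
  have hTe : (0 : ℝ) ≤ T ^ e := Real.rpow_nonneg hT0.le _
  have hcard : (W.card : ℝ) * (V ^ 4 / 2) ≤ 16 * (CI * (CG * (J : ℝ) ^ e * BB J N)) := by
    calc (W.card : ℝ) * (V ^ 4 / 2) = ∑ t ∈ W, V ^ 4 / 2 := by
          rw [Finset.sum_const, nsmul_eq_mul]
      _ ≤ ∑ t ∈ W, 16 * ∫ s in (-S)..S, WTG_h N (bc N a) U (t + s) * gs s :=
          Finset.sum_le_sum hpt
      _ = 16 * ∑ t ∈ W, ∫ s in (-S)..S, WTG_h N (bc N a) U (t + s) * gs s := by
          rw [Finset.mul_sum]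
      _ ≤ 16 * (CI * ∫ θ in (0 : ℝ)..1, ∑ j ∈ IJ J, wj J j * WTG_h N (bc N a) U ((j : ℝ) + θ)) := by
          gcongr
      _ ≤ 16 * (CI * (CG * (J : ℝ) ^ e * BB J N)) := by
          gcongr
  have hV4 : 0 < V ^ 4 := by positivity
  have h1 : CG * (J : ℝ) ^ e * BB J N ≤ CG * (13 * T ^ e) * (13 * BB T N) := by
    gcongr
  have h2 : (W.card : ℝ) * (V ^ 4 / 2) ≤ 16 * (CI * (CG * (13 * T ^ e) * (13 * BB T N))) := by
    refine hcard.trans ?_
    gcongr
  have h3 : 32 * 169 * (CI * CG) * T ^ e * (BB T N / V ^ 4) =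
      (16 * (CI * (CG * (13 * T ^ e) * (13 * BB T N)))) / (V ^ 4 / 2) := by
    field_simp
    ring
  rw [h3, le_div_iff₀ (by positivity)]
  exact h2

/-- **WTG** -/
theorem WTG (hGRD : GRD_stmt) (hGAU : GAU_stmt) (hLVS : LVS_stmt) (hITG : ITG_stmt)
    (hTAI : TAI_stmt) : WTG_stmt := by
  intro ε hε
  set e : ℝ := min (ε / 8) (1 / 2) with he
  have he0 : 0 < e := lt_min (by linarith) (by norm_num)
  have he1 : e ≤ ε / 8 := min_le_left _ _
  have he2 : e ≤ 1 / 2 := min_le_right _ _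
  obtain ⟨CL, hCL, HL⟩ := hLVS e he0
  obtain ⟨CG, hCG, HG⟩ := hGRD e CL he0 hCL
  obtain ⟨CI, hCI, HI⟩ := hITG
  obtain ⟨K, hK, HT⟩ := hTAI e he0
  refine ⟨2 + 2 * K ^ 2 + CL + CL * K + 32 * 169 * (CI * CG), by positivity, ?_⟩
  intro T N a V W hT hN hNT hJN hV hW hCo hVW
  have hT0 : (0 : ℝ) < T := by linarith
  have hNR : (1 : ℝ) ≤ N := by exact_mod_cast hN
  have hBB0 : 0 ≤ BB T N := by unfold BB; positivity
  set R : ℝ := (N : ℝ) ^ 2 / V ^ 2 + BB T N / V ^ 4 with hR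
  have hq1 : 0 ≤ (N : ℝ) ^ 2 / V ^ 2 := by positivity
  have hq2 : 0 ≤ BB T N / V ^ 4 := by positivity
  have hR0 : 0 ≤ R := by positivity
  have hTε : 1 ≤ T ^ ε := Real.one_le_rpow hT hε.le
  have hTe : 1 ≤ T ^ e := Real.one_le_rpow hT he0.le
  have hTee : T ^ e ≤ T ^ ε := Real.rpow_le_rpow_of_exponent_le hT (by linarith)
  have hTee2 : T ^ e * T ^ e ≤ T ^ ε := by
    rw [← Real.rpow_add hT0]
    exact Real.rpow_le_rpow_of_exponent_le hT (by linarith)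
  have hK0 : 0 < K := by linarith
  have hKK : 0 ≤ 2 * K ^ 2 := by positivity
  have hLK : 0 ≤ CL * K := by positivity
  have hIG : 0 ≤ 32 * 169 * (CI * CG) := by positivity
  have hTR : 0 ≤ T ^ ε * R := by positivity
  have hcard := WTG_card T W hT0.le hW
  have hcard2 : (W.card : ℝ) ≤ 2 * T := by linarith
  rcases W.eq_empty_or_nonempty with hWe | hWne
  · rw [hWe, Finset.card_empty]
    push_cast
    positivity
  have hVN : V ≤ N := by
    obtain ⟨t, ht⟩ := hWne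
    exact (hVW t ht).trans (WTG_DPle N a t hCo)
  have hR1 : 1 ≤ R := by
    have h1 : 1 ≤ (N : ℝ) ^ 2 / V ^ 2 := by
      rw [one_le_div (by positivity)]
      exact pow_le_pow_left₀ hV.le hVN 2
    linarith
  have hfin : ∀ c : ℝ, c ≤ 2 + 2 * K ^ 2 + CL + CL * K + 32 * 169 * (CI * CG) →
      (W.card : ℝ) ≤ c * (T ^ ε * R) →
      (W.card : ℝ) ≤ (2 + 2 * K ^ 2 + CL + CL * K + 32 * 169 * (CI * CG)) * T ^ ε * R := by
    intro c hc h
    rw [mul_assoc]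
    exact h.trans (mul_le_mul_of_nonneg_right hc hTR)
  -- J
  set J : ℕ := ⌈6 * (T + 1)⌉₊ with hJ
  have hJ1 : 6 * (T + 1) ≤ J := Nat.le_ceil _
  have hJ2 : (J : ℝ) ≤ 13 * T := by
    have := Nat.ceil_lt_add_one (show 0 ≤ 6 * (T + 1) by linarith)
    linarith
  have hJ0 : (0 : ℝ) ≤ J := by positivity
  by_cases hV1 : V < 1
  · -- `V < 1`
    refine hfin 2 (by linarith) ?_
    have h1 : T ^ (3 / 5 : ℝ) ≤ N :=
      (Real.rpow_le_rpow hT0.le (by linarith) (by norm_num)).trans hJN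
    have h2 : T ^ (1 / 2 : ℝ) ≤ (N : ℝ) ^ 3 := by
      calc T ^ (1 / 2 : ℝ) ≤ T ^ (3 / 5 : ℝ) := Real.rpow_le_rpow_of_exponent_le hT (by norm_num)
        _ ≤ N := h1
        _ ≤ (N : ℝ) ^ 3 := by
            calc (N : ℝ) = (N : ℝ) ^ 1 := by ring
              _ ≤ (N : ℝ) ^ 3 := pow_le_pow_right₀ hNR (by norm_num)
    have h3 : T ≤ BB T N := by
      have h4 : T = T ^ (1 / 2 : ℝ) * T ^ (1 / 2 : ℝ) := by
        rw [← Real.rpow_add hT0]; norm_num
      have h5 : 0 ≤ T ^ (1 / 2 : ℝ) := by positivity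
      have h6 : 0 ≤ T ^ (6 / 7 : ℝ) * (N : ℝ) ^ (18 / 7 : ℝ) := by positivity
      unfold BB
      calc T = T ^ (1 / 2 : ℝ) * T ^ (1 / 2 : ℝ) := h4
        _ ≤ T ^ (1 / 2 : ℝ) * (N : ℝ) ^ 3 := by gcongr
        _ ≤ _ := by linarith
    have h7 : BB T N ≤ BB T N / V ^ 4 := by
      rw [le_div_iff₀ (by positivity)]
      have : V ^ 4 ≤ 1 := pow_le_one₀ hV.le hV1.le
      nlinarith
    calc (W.card : ℝ) ≤ 2 * T := hcard2
      _ ≤ 2 * R := by linarith
      _ ≤ 2 * (T ^ ε * R) := by nlinarith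
  push Not at hV1
  by_cases hST : T < K * T ^ e
  · refine hfin (2 * K ^ 2) (by linarith) ?_
    have h1 : T < K * T ^ (1 / 2 : ℝ) := by
      refine hST.trans_le ?_
      gcongr
    have h2 : T ^ (1 / 2 : ℝ) * T ^ (1 / 2 : ℝ) = T := by
      rw [← Real.rpow_add hT0]; norm_num
    have h3 : 0 < T ^ (1 / 2 : ℝ) := by positivity
    have h4 : T ^ (1 / 2 : ℝ) < K := by
      by_contra hcon
      push Not at hcon
      have : K * T ^ (1 / 2 : ℝ) ≤ T ^ (1 / 2 : ℝ) * T ^ (1 / 2 : ℝ) := by gcongr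
      linarith
    have h5 : T ≤ K ^ 2 := by
      rw [← h2, pow_two]
      gcongr
    calc (W.card : ℝ) ≤ 2 * T := hcard2
      _ ≤ 2 * K ^ 2 := by linarith
      _ ≤ 2 * K ^ 2 * (T ^ ε * R) := by
          have : 1 ≤ T ^ ε * R := by nlinarith
          nlinarith
  push Not at hST
  obtain ⟨U, hU, hKU, hmF⟩ := HG J N hN hJN (by
    have h : (N : ℝ) ≤ J := by linarith
    exact_mod_cast h)
  have hTJ : T ^ e ≤ (J : ℝ) ^ e := Real.rpow_le_rpow hT0.le (by linarith) he0.le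
  have hcond : CL * T ^ e * (N : ℝ) ^ (3 / 2 : ℝ) ≤ U ^ 2 := by
    refine le_trans ?_ hKU
    gcongr
  have hT2 : T ^ (1 / 2 : ℝ) * (N : ℝ) ^ 3 ≤ BB T N := by
    unfold BB
    have h6 : 0 ≤ T ^ (6 / 7 : ℝ) * (N : ℝ) ^ (18 / 7 : ℝ) := by positivity
    linarith
  by_cases hVU : U < V
  · refine hfin CL (by linarith) ?_
    have h1 := HL T N a V 1 W hT hN hNT hV le_rfl hT hW hCo
      (fun t ht => ⟨0, by simp, by rw [add_zero]; exact hVW t ht⟩)
      (hcond.trans (pow_le_pow_left₀ hU.le hVU.le 2))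
    rw [mul_one] at h1
    refine h1.trans ?_
    have h2 : (N : ℝ) ^ 2 / V ^ 2 + T ^ (1 / 2 : ℝ) * (N : ℝ) ^ 3 / V ^ 4 ≤ R := by
      rw [hR]
      gcongr
    calc CL * T ^ e * ((N : ℝ) ^ 2 / V ^ 2 + T ^ (1 / 2 : ℝ) * (N : ℝ) ^ 3 / V ^ 4)
        ≤ CL * T ^ ε * R := by gcongr
      _ = CL * (T ^ ε * R) := by ring
  push Not at hVU
  -- split `W`
  classical
  set S : ℝ := K * T ^ e with hS
  have hS1 : 1 ≤ S := by rw [hS]; nlinarith
  set W₁ : Finset ℝ := W.filter (fun t => ∃ s : ℝ, |s| ≤ S ∧ U ≤ ‖DP N (bc N a) (t + s)‖) with hW₁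
  set W₂ : Finset ℝ := W.filter (fun t => ¬ ∃ s : ℝ, |s| ≤ S ∧ U ≤ ‖DP N (bc N a) (t + s)‖) with hW₂
  have hsub : ∀ (W' : Finset ℝ), W' ⊆ W → S1 T W' := fun W' h =>
    ⟨fun t ht => hW.1 t (h ht), fun t ht s hs hne => hW.2 t (h ht) s (h hs) hne⟩
  have hsplit : W₁.card + W₂.card = W.card := Finset.card_filter_add_card_filter_not _
  have hb := (hGAU N a hN hCo).1
  have hc1 : (W₁.card : ℝ) ≤ CL * K * (T ^ ε * R) := by
    have h1 := HL T N (bc N a) U S W₁ hT hN hNT hU hS1 hST (hsub _ (Finset.filter_subset _ _)) hb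
      (fun t ht => (Finset.mem_filter.mp ht).2) hcond
    refine h1.trans ?_
    have h2 : (N : ℝ) ^ 2 / U ^ 2 + T ^ (1 / 2 : ℝ) * (N : ℝ) ^ 3 / U ^ 4 ≤ R := by
      rw [hR]
      gcongr
    calc CL * S * T ^ e * ((N : ℝ) ^ 2 / U ^ 2 + T ^ (1 / 2 : ℝ) * (N : ℝ) ^ 3 / U ^ 4)
        ≤ CL * S * T ^ e * R := by gcongr
      _ = CL * K * ((T ^ e * T ^ e) * R) := by rw [hS]; ring
      _ ≤ CL * K * (T ^ ε * R) := by gcongr
  have hc2 : (W₂.card : ℝ) ≤ 32 * 169 * (CI * CG) * (T ^ ε * R) := by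
    have h1 := WTG_small T S K e V U CG CI N J a W₂ hT hN hNT hS (by linarith) hV1 hCG hCI
      he0.le (by linarith) (hsub _ (Finset.filter_subset _ _)) hCo
      (fun t ht => hVW t (Finset.mem_filter.mp ht).1) hGAU HI (HT T hT)
      (by linarith) hJ2 hmF (by
        intro t ht s hs
        by_contra hcon
        push Not at hcon
        exact (Finset.mem_filter.mp ht).2 ⟨s, hs, hcon.le⟩)
    refine h1.trans ?_
    have h2 : BB T N / V ^ 4 ≤ R := by rw [hR]; linarith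
    calc 32 * 169 * (CI * CG) * T ^ e * (BB T N / V ^ 4)
        ≤ 32 * 169 * (CI * CG) * T ^ ε * R := by gcongr
      _ = _ := by ring
  refine hfin (CL * K + 32 * 169 * (CI * CG)) (by linarith) ?_
  have h1 : (W.card : ℝ) = W₁.card + W₂.card := by exact_mod_cast hsplit.symm
  rw [h1, add_mul]
  linarith

end Pool.Agent.LW
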